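import Pool.Agent.Helper93.TH3.StD

/-! # Project TH3: module ExA (the edge function of a solution of the relations) -/

set_option autoImplicit false

namespace Pool.Agent.Helper66.TH3

open Pool.Agent.Helper78.W3 (tr S3Trm)
open Pool.Agent.Helper93.TH3 Pool.Agent.Helper93.TLH

private theorem ndm {a b : ℤ} (ha : ¬ (3 : ℤ) ∣ a) (hb : ¬ (3 : ℤ) ∣ b) : ¬ (3 : ℤ) ∣ a * b := by
  intro h
  rcases (Int.prime_ofNat_iff.2 (by norm_num : Nat.Prime 3)).dvd_or_dvd h with h | h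
  · exact ha h
  · exact hb h

private theorem cop {r : ℕ} {a : ℤ} (h : ¬ (3 : ℤ) ∣ a) : IsUnit ((a : ℤ) : ZMod (3 ^ r)) := by
  have h1 : IsCoprime a 3 := by
    have := (Int.prime_ofNat_iff.2 (by norm_num : Nat.Prime 3)).coprime_iff_not_dvd.2 h
    exact this.symm
  have h2 : IsCoprime a ((3 ^ r : ℕ) : ℤ) := by
    push_cast
    exact h1.pow_right
  exact (ZMod.coe_int_isUnit_iff_isCoprime a (3 ^ r)).2 h2.symm

private theorem den {r : ℕ} {a c : ℤ} (x : ZMod (3 ^ r)) (h : ¬ (3 : ℤ) ∣ a) :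
    IsUnit ((a : ZMod (3 ^ r)) + 9 * c * x) := by
  have : NeZero (3 ^ r) := ⟨pow_ne_zero _ (by norm_num)⟩
  have : (a : ZMod (3 ^ r)) + 9 * c * x = ((a + 9 * c * (x.val : ℤ) : ℤ) : ZMod (3 ^ r)) := by
    push_cast
    rw [ZMod.natCast_zmod_val]
  rw [this]
  apply cop
  intro h3
  exact h ((dvd_add_left (⟨3 * c * (x.val : ℤ), by ring⟩ : (3 : ℤ) ∣ 9 * c * (x.val : ℤ))).1 h3)

private theorem res {a b c d : ℤ} (h : ¬ (3 : ℤ) ∣ a * d - 3 * (b * c)) :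
    ¬ (3 : ℤ) ∣ a ∧ ¬ (3 : ℤ) ∣ d := by
  constructor
  · rintro ⟨k, rfl⟩
    exact h ⟨k * d - b * c, by ring⟩
  · rintro ⟨k, rfl⟩
    exact h ⟨a * k - b * c, by ring⟩

/-- `(a 3b; 3c d)` has the coordinates `(x, y)` -/
private def Pt {r s : ℕ} (a b c d : ℤ) (x : ZMod (3 ^ r)) (y : ZMod (3 ^ s)) : Prop :=
  ¬ (3 : ℤ) ∣ a ∧ ¬ (3 : ℤ) ∣ d ∧ (b : ZMod (3 ^ r)) = x * a ∧ (c : ZMod (3 ^ s)) = y * d

private theorem pt_mk (r s : ℕ) {a b c d : ℤ} (ha : ¬ (3 : ℤ) ∣ a) (hd : ¬ (3 : ℤ) ∣ d) :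
    ∃ (x : ZMod (3 ^ r)) (y : ZMod (3 ^ s)), Pt a b c d x y := by
  refine ⟨(b : ZMod (3 ^ r)) * (a : ZMod (3 ^ r))⁻¹, (c : ZMod (3 ^ s)) * (d : ZMod (3 ^ s))⁻¹,
    ha, hd, ?_, ?_⟩
  · rw [mul_assoc, ZMod.inv_mul_of_unit _ (cop ha), mul_one]
  · rw [mul_assoc, ZMod.inv_mul_of_unit _ (cop hd), mul_one]

private theorem pt_uniq {r s : ℕ} {a b c d : ℤ} {x x' : ZMod (3 ^ r)} {y y' : ZMod (3 ^ s)}
    (h : Pt a b c d x y) (h' : Pt a b c d x' y') : x = x' ∧ y = y' := by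
  obtain ⟨h1, h2, h3, h4⟩ := h
  obtain ⟨-, -, h3', h4'⟩ := h'
  exact ⟨(cop h1).mul_right_cancel (h3.symm.trans h3'),
    (cop h2).mul_right_cancel (h4.symm.trans h4')⟩

private theorem pt_scale {r s : ℕ} {a b c d k A B C D : ℤ} {x : ZMod (3 ^ r)} {y : ZMod (3 ^ s)}
    (h : Pt a b c d x y) (hk : ¬ (3 : ℤ) ∣ k) (hA : A = k * a) (hB : B = k * b) (hC : C = k * c)
    (hD : D = k * d) : Pt A B C D x y := by
  obtain ⟨h1, h2, h3, h4⟩ := h
  subst hA hB hC hD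
  refine ⟨ndm hk h1, ndm hk h2, ?_, ?_⟩
  · push_cast
    rw [h3]
    ring
  · push_cast
    rw [h4]
    ring

private theorem pt_mul {r s : ℕ} {a b c d : ℤ} {x : ZMod (3 ^ r)} {y : ZMod (3 ^ s)}
    (h : Pt a b c d x y) {α β γ δ : ℤ} (hα : ¬ (3 : ℤ) ∣ α) (hδ : ¬ (3 : ℤ) ∣ δ) :
    Pt (a * α + 9 * b * γ) (a * β + b * δ) (c * α + d * γ) (9 * c * β + d * δ)
      (((β : ZMod (3 ^ r)) + (δ : ZMod (3 ^ r)) * x) *
        ((α : ZMod (3 ^ r)) + 9 * (γ : ZMod (3 ^ r)) * x)⁻¹)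
      (((γ : ZMod (3 ^ s)) + (α : ZMod (3 ^ s)) * y) *
        ((δ : ZMod (3 ^ s)) + 9 * (β : ZMod (3 ^ s)) * y)⁻¹) := by
  obtain ⟨h1, h2, h3, h4⟩ := h
  have u1 := ZMod.inv_mul_of_unit _ (den (r := r) (a := α) (c := γ) x hα)
  have u2 := ZMod.inv_mul_of_unit _ (den (r := s) (a := δ) (c := β) y hδ)
  refine ⟨?_, ?_, ?_, ?_⟩
  · intro h
    exact ndm h1 hα ((dvd_add_left (⟨3 * b * γ, by ring⟩ : (3 : ℤ) ∣ 9 * b * γ)).1 h)
  · intro h
    exact ndm h2 hδ ((dvd_add_right (⟨3 * c * β, by ring⟩ : (3 : ℤ) ∣ 9 * c * β)).1 h)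
  · push_cast
    rw [h3]
    linear_combination (-((a : ZMod (3 ^ r)) * ((β : ZMod (3 ^ r)) + δ * x))) * u1
  · push_cast
    rw [h4]
    linear_combination (-((d : ZMod (3 ^ s)) * ((γ : ZMod (3 ^ s)) + α * y))) * u2

private theorem pt_left {r s : ℕ} {a b c d : ℤ} {x : ZMod (3 ^ r)} {y : ZMod (3 ^ s)}
    (h : Pt a b c d x y) {α β γ δ A B C D : ℤ} (hα : ¬ (3 : ℤ) ∣ α) (hδ : ¬ (3 : ℤ) ∣ δ)
    (hA : A = α * a + 3 ^ r * β * (9 * c)) (hB : B = α * b + 3 ^ r * β * d)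
    (hC : C = 3 ^ s * γ * a + δ * c) (hD : D = 3 ^ s * γ * (9 * b) + δ * d) : Pt A B C D x y := by
  obtain ⟨h1, h2, h3, h4⟩ := h
  subst hA hB hC hD
  have z1 : ((3 : ℤ) ^ r : ZMod (3 ^ r)) = 0 := by
    have := ZMod.natCast_self (3 ^ r)
    push_cast at this ⊢
    exact this
  have z2 : ((3 : ℤ) ^ s : ZMod (3 ^ s)) = 0 := by
    have := ZMod.natCast_self (3 ^ s)
    push_cast at this ⊢
    exact this
  refine ⟨?_, ?_, ?_, ?_⟩
  · intro h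
    exact ndm hα h1 ((dvd_add_left
      (⟨3 ^ r * β * (3 * c), by ring⟩ : (3 : ℤ) ∣ 3 ^ r * β * (9 * c))).1 h)
  · intro h
    exact ndm hδ h2 ((dvd_add_right
      (⟨3 ^ s * γ * (3 * b), by ring⟩ : (3 : ℤ) ∣ 3 ^ s * γ * (9 * b))).1 h)
  · push_cast at z1 ⊢
    rw [z1, h3]
    ring
  · push_cast at z2 ⊢
    rw [z2, h4]
    ring

/-! ### the classes -/

private def cP : Fin 7 → ℤ := ![1, 1, 1, 1, 1, 2, -2]
private def cQ : Fin 7 → ℤ := ![0, -1, 1, 0, 0, -1, -1]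
private def cS : Fin 7 → ℤ := ![0, 0, 0, -2, 2, -2, -2]

private theorem hPQ : ∀ i, ¬ (3 : ℤ) ∣ cP i * cP i - cQ i * cS i := by
  decide

private theorem dj1 : ∀ i j : Fin 7, ∀ a b c d : ℤ, (3 : ℤ) ∣ a * cQ i + b * cP i →
    (3 : ℤ) ∣ c * cP i + d * cS i → ¬ (3 : ℤ) ∣ a * cP i + b * cS i →
    ¬ (3 : ℤ) ∣ c * cQ i + d * cP i → (3 : ℤ) ∣ a * cQ j + b * cP j →
    (3 : ℤ) ∣ c * cP j + d * cS j → i = j := by
  intro i j a b c d
  fin_cases i <;> fin_cases j <;> simp [cP, cQ, cS] <;> omega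

private theorem dj2 : ∀ i j : Fin 7, ∀ a b c d : ℤ, (3 : ℤ) ∣ a * cQ i + b * cP i →
    (3 : ℤ) ∣ c * cP i + d * cS i → ¬ (3 : ℤ) ∣ a * cP i + b * cS i →
    ¬ (3 : ℤ) ∣ c * cQ i + d * cP i → (3 : ℤ) ∣ 2 * b * cQ j + -a * cP j →
    (3 : ℤ) ∣ 2 * d * cP j + -c * cS j → (i = 5 ∧ j = 5) ∨ (i = 6 ∧ j = 6) := by
  intro i j a b c d
  fin_cases i <;> fin_cases j <;> simp [cP, cQ, cS] <;> omega

section

variable {R : Type} [AddCommGroup R] {r s : ℕ} (F : Fin 5 → ZMod (3 ^ r) → ZMod (3 ^ s) → R)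

private noncomputable def H : Fin 7 → ZMod (3 ^ r) → ZMod (3 ^ s) → R :=
  ![F 0, F 1, F 2, F 3, F 4, kT F, kT' F]

private def Val (a b c d : ℤ) (v : R) : Prop :=
  ∃ (i : Fin 7) (b' c' : ℤ) (x : ZMod (3 ^ r)) (y : ZMod (3 ^ s)),
    a * cQ i + b * cP i = 3 * b' ∧ c * cP i + d * cS i = 3 * c' ∧
    Pt (a * cP i + b * cS i) b' c' (c * cQ i + d * cP i) x y ∧ v = H F i x y

open Classical in
private noncomputable def V (a b c d : ℤ) : R :=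
  if h : ∃ v, Val F a b c d v then h.choose
  else if h' : ∃ v, Val F (2 * b) (-a) (2 * d) (-c) v then -h'.choose else 0

variable {F}

private theorem val_uniq {a b c d : ℤ} {v w : R} (h : Val F a b c d v) (h' : Val F a b c d w) :
    v = w := by
  obtain ⟨i, b', c', x, y, e1, e2, hp, rfl⟩ := h
  obtain ⟨j, b'', c'', x', y', e1', e2', hp', rfl⟩ := h'
  obtain rfl : i = j := dj1 i j a b c d ⟨b', e1⟩ ⟨c', e2⟩ hp.1 hp.2.1 ⟨b'', e1'⟩ ⟨c'', e2'⟩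
  obtain rfl : b' = b'' := by omega
  obtain rfl : c' = c'' := by omega
  obtain ⟨rfl, rfl⟩ := pt_uniq hp hp'
  rfl

private theorem val_anti (hR : RelT F) {a b c d : ℤ} {v w : R} (h : Val F a b c d w)
    (h' : Val F (2 * b) (-a) (2 * d) (-c) v) : w = -v := by
  obtain ⟨i, b', c', x, y, e1, e2, hp, rfl⟩ := h
  obtain ⟨j, b'', c'', x', y', e1', e2', hp', rfl⟩ := h'
  rcases dj2 i j a b c d ⟨b', e1⟩ ⟨c', e2⟩ hp.1 hp.2.1 ⟨b'', e1'⟩ ⟨c'', e2'⟩ with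
    ⟨rfl, rfl⟩ | ⟨rfl, rfl⟩
  · have f1 : a * (-1) + b * 2 = 3 * b' := e1
    have f2 : c * 2 + d * (-2) = 3 * c' := e2
    have f1' : 2 * b * (-1) + -a * 2 = 3 * b'' := e1'
    have f2' : 2 * d * 2 + -c * (-2) = 3 * c'' := e2'
    have gp : Pt (a * 2 + b * (-2)) b' c' (c * (-1) + d * 2) x y := hp
    have gp' : Pt (2 * b * 2 + -a * (-2)) b'' c'' (2 * d * (-1) + -c * 2) x' y' := hp'
    have hm := pt_mul gp (α := 4) (β := -1) (γ := 2) (δ := -4) (by decide) (by decide)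
    obtain ⟨k1, k2⟩ := pt_uniq gp' (pt_scale (k := 1) hm (by decide) (by omega) (by omega)
      (by omega) (by omega))
    have h1 := hR.1 x y
    show kT F x y = -kT F x' y'
    rw [k1, k2]
    exact eq_neg_of_add_eq_zero_left h1
  · have f1 : a * (-1) + b * (-2) = 3 * b' := e1
    have f2 : c * (-2) + d * (-2) = 3 * c' := e2
    have f1' : 2 * b * (-1) + -a * (-2) = 3 * b'' := e1'
    have f2' : 2 * d * (-2) + -c * (-2) = 3 * c'' := e2'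
    have gp : Pt (a * (-2) + b * (-2)) b' c' (c * (-1) + d * (-2)) x y := hp
    have gp' : Pt (2 * b * (-2) + -a * (-2)) b'' c'' (2 * d * (-1) + -c * (-2)) x' y' := hp'
    have hm := pt_mul gp (α := 4) (β := 1) (γ := -2) (δ := -4) (by decide) (by decide)
    obtain ⟨k1, k2⟩ := pt_uniq gp' (pt_scale (k := -1) hm (by decide) (by omega) (by omega)
      (by omega) (by omega))
    have h1 := hR.2.1 x y
    show kT' F x y = -kT' F x' y'
    rw [k1, k2]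
    exact eq_neg_of_add_eq_zero_left h1

private theorem val_V {a b c d : ℤ} {v : R} (h : Val F a b c d v) : V F a b c d = v := by
  have h' : ∃ v, Val F a b c d v := ⟨v, h⟩
  unfold V
  rw [dif_pos h']
  exact val_uniq h'.choose_spec h

private theorem val_VS (hR : RelT F) {a b c d : ℤ} {v : R}
    (h : Val F (2 * b) (-a) (2 * d) (-c) v) : V F a b c d = -v := by
  by_cases h' : ∃ w, Val F a b c d w
  · obtain ⟨w, hw⟩ := h'
    rw [val_V hw]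
    exact val_anti hR hw h
  · have h2 : ∃ w, Val F (2 * b) (-a) (2 * d) (-c) w := ⟨v, h⟩
    unfold V
    rw [dif_neg h', dif_pos h2, val_uniq h2.choose_spec h]

private theorem val_scale {a b c d k A B C D : ℤ} {v : R} (h : Val F a b c d v)
    (hk : ¬ (3 : ℤ) ∣ k) (hA : A = k * a) (hB : B = k * b) (hC : C = k * c) (hD : D = k * d) :
    Val F A B C D v := by
  subst hA hB hC hD
  obtain ⟨i, b', c', x, y, e1, e2, hp, rfl⟩ := h
  exact ⟨i, k * b', k * c', x, y, by linear_combination k * e1, by linear_combination k * e2,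
    pt_scale hp hk (by ring) rfl rfl (by ring), rfl⟩

private theorem val_left {a b c d α β γ δ A B C D : ℤ} {v : R} (h : Val F a b c d v)
    (hα : ¬ (3 : ℤ) ∣ α) (hδ : ¬ (3 : ℤ) ∣ δ)
    (hA : A = α * a + 3 ^ (r + 1) * β * c) (hB : B = α * b + 3 ^ (r + 1) * β * d)
    (hC : C = 3 ^ (s + 1) * γ * a + δ * c) (hD : D = 3 ^ (s + 1) * γ * b + δ * d) :
    Val F A B C D v := by
  subst hA hB hC hD
  obtain ⟨i, b', c', x, y, e1, e2, hp, rfl⟩ := h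
  refine ⟨i, α * b' + 3 ^ r * β * (c * cQ i + d * cP i),
    3 ^ s * γ * (a * cP i + b * cS i) + δ * c', x, y, ?_, ?_, ?_, rfl⟩
  · rw [pow_succ]
    linear_combination α * e1
  · rw [pow_succ]
    linear_combination δ * e2
  · refine pt_left (β := β) (γ := γ) hp hα hδ ?_ rfl rfl ?_
    · rw [pow_succ]
      linear_combination (3 ^ r * 3 * β) * e2
    · rw [pow_succ]
      linear_combination (3 ^ s * 3 * γ) * e1

private theorem cls0 : ∀ a b c d : ZMod 3, a * d - b * c ≠ 0 →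
    (b = 0 ∧ c = 0) ∨ (b - a = 0 ∧ c = 0) ∨ (a + b = 0 ∧ c = 0) ∨ (b = 0 ∧ c - 2 * d = 0) ∨
    (b = 0 ∧ c + 2 * d = 0) ∨ (a + b = 0 ∧ c - d = 0) ∨ (a - b = 0 ∧ c + d = 0) ∨
    (a = 0 ∧ d = 0) ∨ (a - b = 0 ∧ d = 0) ∨ (a + b = 0 ∧ d = 0) ∨ (a = 0 ∧ c + d = 0) ∨
    (a = 0 ∧ c - d = 0) := by
  decide

private theorem e3d : ∀ z : ℤ, ((z : ℤ) : ZMod 3) = 0 → (3 : ℤ) ∣ z := fun z hz =>
  (ZMod.intCast_zmod_eq_zero_iff_dvd z 3).1 hz

private theorem cls1 {a b c d : ℤ} (h : ¬ (3 : ℤ) ∣ a * d - b * c) :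
    ((3 : ℤ) ∣ b ∧ (3 : ℤ) ∣ c) ∨ ((3 : ℤ) ∣ b - a ∧ (3 : ℤ) ∣ c) ∨ ((3 : ℤ) ∣ a + b ∧ (3 : ℤ) ∣ c) ∨
    ((3 : ℤ) ∣ b ∧ (3 : ℤ) ∣ c - 2 * d) ∨
    ((3 : ℤ) ∣ b ∧ (3 : ℤ) ∣ c + 2 * d) ∨ ((3 : ℤ) ∣ a + b ∧ (3 : ℤ) ∣ c - d) ∨
    ((3 : ℤ) ∣ a - b ∧ (3 : ℤ) ∣ c + d) ∨
    ((3 : ℤ) ∣ a ∧ (3 : ℤ) ∣ d) ∨ ((3 : ℤ) ∣ a - b ∧ (3 : ℤ) ∣ d) ∨ ((3 : ℤ) ∣ a + b ∧ (3 : ℤ) ∣ d) ∨
    ((3 : ℤ) ∣ a ∧ (3 : ℤ) ∣ c + d) ∨ ((3 : ℤ) ∣ a ∧ (3 : ℤ) ∣ c - d) := by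
  have h0 := cls0 a b c d (by
    intro h1
    apply h
    apply e3d
    push_cast
    exact h1)
  rcases h0 with ⟨p, q⟩ | ⟨p, q⟩ | ⟨p, q⟩ | ⟨p, q⟩ | ⟨p, q⟩ | ⟨p, q⟩ | ⟨p, q⟩ | ⟨p, q⟩ | ⟨p, q⟩ |
    ⟨p, q⟩ | ⟨p, q⟩ | ⟨p, q⟩
  · exact Or.inl ⟨e3d _ p, e3d _ q⟩
  · exact Or.inr (Or.inl ⟨e3d _ (by push_cast; exact p), e3d _ q⟩)
  · exact Or.inr (Or.inr (Or.inl ⟨e3d _ (by push_cast; exact p), e3d _ q⟩))
  · exact Or.inr (Or.inr (Or.inr (Or.inl ⟨e3d _ p, e3d _ (by push_cast; exact q)⟩)))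
  · exact Or.inr (Or.inr (Or.inr (Or.inr (Or.inl ⟨e3d _ p, e3d _ (by push_cast; exact q)⟩))))
  · exact Or.inr (Or.inr (Or.inr (Or.inr (Or.inr (Or.inl ⟨e3d _ (by push_cast; exact p),
      e3d _ (by push_cast; exact q)⟩)))))
  · exact Or.inr (Or.inr (Or.inr (Or.inr (Or.inr (Or.inr (Or.inl ⟨e3d _ (by push_cast; exact p),
      e3d _ (by push_cast; exact q)⟩))))))
  · exact Or.inr (Or.inr (Or.inr (Or.inr (Or.inr (Or.inr (Or.inr (Or.inl
      ⟨e3d _ p, e3d _ q⟩)))))))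
  · exact Or.inr (Or.inr (Or.inr (Or.inr (Or.inr (Or.inr (Or.inr (Or.inr (Or.inl
      ⟨e3d _ (by push_cast; exact p), e3d _ q⟩))))))))
  · exact Or.inr (Or.inr (Or.inr (Or.inr (Or.inr (Or.inr (Or.inr (Or.inr (Or.inr (Or.inl
      ⟨e3d _ (by push_cast; exact p), e3d _ q⟩)))))))))
  · exact Or.inr (Or.inr (Or.inr (Or.inr (Or.inr (Or.inr (Or.inr (Or.inr (Or.inr (Or.inr (Or.inl
      ⟨e3d _ p, e3d _ (by push_cast; exact q)⟩))))))))))
  · exact Or.inr (Or.inr (Or.inr (Or.inr (Or.inr (Or.inr (Or.inr (Or.inr (Or.inr (Or.inr (Or.inr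
      ⟨e3d _ p, e3d _ (by push_cast; exact q)⟩))))))))))

private theorem fwd (i : Fin 7) {a b c d : ℤ} (h : ¬ (3 : ℤ) ∣ a * d - b * c)
    (h1 : (3 : ℤ) ∣ a * cQ i + b * cP i) (h2 : (3 : ℤ) ∣ c * cP i + d * cS i) :
    ∃ v, Val F a b c d v := by
  obtain ⟨b', e1⟩ := h1
  obtain ⟨c', e2⟩ := h2
  have hr := res (a := a * cP i + b * cS i) (b := b') (c := 3 * c') (d := c * cQ i + d * cP i) (by
    have e : (a * cP i + b * cS i) * (c * cQ i + d * cP i) - 3 * (b' * (3 * c')) =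
        (a * d - b * c) * (cP i * cP i - cQ i * cS i) := by
      rw [← e2]
      linear_combination (c * cP i + d * cS i) * e1
    rw [e]
    exact ndm h (hPQ i))
  obtain ⟨x, y, hp⟩ := pt_mk r s (b := b') (c := c') hr.1 hr.2
  exact ⟨_, i, b', c', x, y, e1, e2, hp, rfl⟩

private theorem fw {a b c d : ℤ} (h : ¬ (3 : ℤ) ∣ a * d - b * c)
    (hc : ((3 : ℤ) ∣ b ∧ (3 : ℤ) ∣ c) ∨ ((3 : ℤ) ∣ b - a ∧ (3 : ℤ) ∣ c) ∨
      ((3 : ℤ) ∣ a + b ∧ (3 : ℤ) ∣ c) ∨ ((3 : ℤ) ∣ b ∧ (3 : ℤ) ∣ c - 2 * d) ∨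
      ((3 : ℤ) ∣ b ∧ (3 : ℤ) ∣ c + 2 * d) ∨ ((3 : ℤ) ∣ a + b ∧ (3 : ℤ) ∣ c - d) ∨
      ((3 : ℤ) ∣ a - b ∧ (3 : ℤ) ∣ c + d)) : ∃ v, Val F a b c d v := by
  rcases hc with ⟨p, q⟩ | ⟨p, q⟩ | ⟨p, q⟩ | ⟨p, q⟩ | ⟨p, q⟩ | ⟨p, q⟩ | ⟨p, q⟩
  · exact fwd 0 h (by show (3 : ℤ) ∣ a * 0 + b * 1; omega) (by show (3 : ℤ) ∣ c * 1 + d * 0; omega)
  · exact fwd 1 h (by show (3 : ℤ) ∣ a * (-1) + b * 1; omega)
      (by show (3 : ℤ) ∣ c * 1 + d * 0; omega)
  · exact fwd 2 h (by show (3 : ℤ) ∣ a * 1 + b * 1; omega) (by show (3 : ℤ) ∣ c * 1 + d * 0; omega)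
  · exact fwd 3 h (by show (3 : ℤ) ∣ a * 0 + b * 1; omega)
      (by show (3 : ℤ) ∣ c * 1 + d * (-2); omega)
  · exact fwd 4 h (by show (3 : ℤ) ∣ a * 0 + b * 1; omega) (by show (3 : ℤ) ∣ c * 1 + d * 2; omega)
  · exact fwd 5 h (by show (3 : ℤ) ∣ a * (-1) + b * 2; omega)
      (by show (3 : ℤ) ∣ c * 2 + d * (-2); omega)
  · exact fwd 6 h (by show (3 : ℤ) ∣ a * (-1) + b * (-2); omega)
      (by show (3 : ℤ) ∣ c * (-2) + d * (-2); omega)

private theorem cls {a b c d : ℤ} (h : ¬ (3 : ℤ) ∣ a * d - b * c) :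
    (∃ v, Val F a b c d v) ∨ (∃ v, Val F (2 * b) (-a) (2 * d) (-c) v) := by
  have h2 : ¬ (3 : ℤ) ∣ 2 * b * -c - -a * (2 * d) := by
    have : 2 * b * -c - -a * (2 * d) = 2 * (a * d - b * c) := by ring
    rw [this]
    exact ndm (by decide) h
  rcases cls1 h with p | p | p | p | p | p | p | ⟨p, q⟩ | ⟨p, q⟩ | ⟨p, q⟩ | ⟨p, q⟩ | ⟨p, q⟩
  · exact Or.inl (fw h (Or.inl p))
  · exact Or.inl (fw h (Or.inr (Or.inl p)))
  · exact Or.inl (fw h (Or.inr (Or.inr (Or.inl p))))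
  · exact Or.inl (fw h (Or.inr (Or.inr (Or.inr (Or.inl p)))))
  · exact Or.inl (fw h (Or.inr (Or.inr (Or.inr (Or.inr (Or.inl p))))))
  · exact Or.inl (fw h (Or.inr (Or.inr (Or.inr (Or.inr (Or.inr (Or.inl p)))))))
  · exact Or.inl (fw h (Or.inr (Or.inr (Or.inr (Or.inr (Or.inr (Or.inr p)))))))
  · exact Or.inr (fw h2 (Or.inl ⟨by omega, by omega⟩))
  · exact Or.inr (fw h2 (Or.inr (Or.inl ⟨by omega, by omega⟩)))
  · exact Or.inr (fw h2 (Or.inr (Or.inr (Or.inl ⟨by omega, by omega⟩))))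
  · exact Or.inr (fw h2 (Or.inr (Or.inr (Or.inr (Or.inl ⟨by omega, by omega⟩)))))
  · exact Or.inr (fw h2 (Or.inr (Or.inr (Or.inr (Or.inr (Or.inl ⟨by omega, by omega⟩))))))

private theorem V_scale (hR : RelT F) {a b c d : ℤ} (h : ¬ (3 : ℤ) ∣ a * d - b * c) (k : ℤ)
    (hk : ¬ (3 : ℤ) ∣ k) {A B C D : ℤ} (hA : A = k * a) (hB : B = k * b) (hC : C = k * c)
    (hD : D = k * d) : V F A B C D = V F a b c d := by
  rcases cls (F := F) h with ⟨v, hv⟩ | ⟨v, hv⟩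
  · rw [val_V hv, val_V (val_scale hv hk hA hB hC hD)]
  · rw [val_VS hR hv]
    exact val_VS hR (val_scale hv hk (by rw [hB]; ring) (by rw [hA]; ring) (by rw [hD]; ring)
      (by rw [hC]; ring))

private theorem V_S (hR : RelT F) {a b c d : ℤ} (h : ¬ (3 : ℤ) ∣ a * d - b * c) {A B C D : ℤ}
    (hA : A = 2 * b) (hB : B = -a) (hC : C = 2 * d) (hD : D = -c) :
    V F A B C D = -V F a b c d := by
  subst hA hB hC hD
  rcases cls (F := F) h with ⟨v, hv⟩ | ⟨v, hv⟩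
  · rw [val_V hv]
    exact val_VS hR (val_scale (k := -2) hv (by decide) (by ring) (by ring) (by ring) (by ring))
  · rw [val_VS hR hv, val_V hv, neg_neg]

private theorem V_left (hR : RelT F) {a b c d α β γ δ A B C D : ℤ}
    (h : ¬ (3 : ℤ) ∣ a * d - b * c)
    (hα : ¬ (3 : ℤ) ∣ α) (hδ : ¬ (3 : ℤ) ∣ δ) (hβ : (3 : ℤ) ^ (r + 1) ∣ β)
    (hγ : (3 : ℤ) ^ (s + 1) ∣ γ)
    (hA : A = α * a + β * c) (hB : B = α * b + β * d)
    (hC : C = γ * a + δ * c) (hD : D = γ * b + δ * d) :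
    V F A B C D = V F a b c d := by
  obtain ⟨β', rfl⟩ := hβ
  obtain ⟨γ', rfl⟩ := hγ
  rcases cls (F := F) h with ⟨v, hv⟩ | ⟨v, hv⟩
  · rw [val_V hv, val_V (val_left hv hα hδ hA hB hC hD)]
  · rw [val_VS hR hv]
    exact val_VS hR (val_left (β := β') (γ := γ') hv hα hδ (by rw [hB]; ring) (by rw [hA]; ring)
      (by rw [hD]; ring) (by rw [hC]; ring))

/-! ### values -/

private theorem ev (i : Fin 7) {a b c d : ℤ} {x : ZMod (3 ^ r)} {y : ZMod (3 ^ s)}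
    (hp : Pt a b c d x y) {A B C D : ℤ} (k : ℤ) (hk : ¬ (3 : ℤ) ∣ k)
    (h1 : A * cP i + B * cS i = k * a)
    (h2 : A * cQ i + B * cP i = k * (3 * b)) (h3 : C * cP i + D * cS i = k * (3 * c))
    (h4 : C * cQ i + D * cP i = k * d) : V F A B C D = H F i x y :=
  val_V ⟨i, k * b, k * c, x, y, by rw [h2]; ring, by rw [h3]; ring,
    pt_scale (k := k) hp hk h1 rfl rfl h4, rfl⟩

private theorem ev0 {a b c d : ℤ} {x : ZMod (3 ^ r)} {y : ZMod (3 ^ s)} (hp : Pt a b c d x y)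
    {A B C D : ℤ} (hA : A = a) (hB : B = 3 * b) (hC : C = 3 * c) (hD : D = d) :
    V F A B C D = F 0 x y :=
  ev 0 hp 1 (by decide) (by show A * 1 + B * 0 = 1 * a; omega)
    (by show A * 0 + B * 1 = 1 * (3 * b); omega) (by show C * 1 + D * 0 = 1 * (3 * c); omega)
    (by show C * 0 + D * 1 = 1 * d; omega)

private theorem ev1 {a b c d : ℤ} {x : ZMod (3 ^ r)} {y : ZMod (3 ^ s)} (hp : Pt a b c d x y)
    {A B C D : ℤ} (hA : A = a) (hB : B = a + 3 * b) (hC : C = 3 * c) (hD : D = 3 * c + d) :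
    V F A B C D = F 1 x y :=
  ev 1 hp 1 (by decide) (by show A * 1 + B * 0 = 1 * a; omega)
    (by show A * (-1) + B * 1 = 1 * (3 * b); omega) (by show C * 1 + D * 0 = 1 * (3 * c); omega)
    (by show C * (-1) + D * 1 = 1 * d; omega)

private theorem ev2 {a b c d : ℤ} {x : ZMod (3 ^ r)} {y : ZMod (3 ^ s)} (hp : Pt a b c d x y)
    {A B C D : ℤ} (hA : A = a) (hB : B = 3 * b - a) (hC : C = 3 * c) (hD : D = d - 3 * c) :
    V F A B C D = F 2 x y :=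
  ev 2 hp 1 (by decide) (by show A * 1 + B * 0 = 1 * a; omega)
    (by show A * 1 + B * 1 = 1 * (3 * b); omega) (by show C * 1 + D * 0 = 1 * (3 * c); omega)
    (by show C * 1 + D * 1 = 1 * d; omega)

private theorem ev3 {a b c d : ℤ} {x : ZMod (3 ^ r)} {y : ZMod (3 ^ s)} (hp : Pt a b c d x y)
    {A B C D : ℤ} (hA : A = a + 6 * b) (hB : B = 3 * b) (hC : C = 3 * c + 2 * d) (hD : D = d) :
    V F A B C D = F 3 x y :=
  ev 3 hp 1 (by decide) (by show A * 1 + B * (-2) = 1 * a; omega)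
    (by show A * 0 + B * 1 = 1 * (3 * b); omega) (by show C * 1 + D * (-2) = 1 * (3 * c); omega)
    (by show C * 0 + D * 1 = 1 * d; omega)

private theorem ev4 {a b c d : ℤ} {x : ZMod (3 ^ r)} {y : ZMod (3 ^ s)} (hp : Pt a b c d x y)
    {A B C D : ℤ} (hA : A = a - 6 * b) (hB : B = 3 * b) (hC : C = 3 * c - 2 * d) (hD : D = d) :
    V F A B C D = F 4 x y :=
  ev 4 hp 1 (by decide) (by show A * 1 + B * 2 = 1 * a; omega)
    (by show A * 0 + B * 1 = 1 * (3 * b); omega) (by show C * 1 + D * 2 = 1 * (3 * c); omega)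
    (by show C * 0 + D * 1 = 1 * d; omega)

private theorem ev5 {a b c d : ℤ} {x : ZMod (3 ^ r)} {y : ZMod (3 ^ s)} (hp : Pt a b c d x y)
    {A B C D : ℤ} (hA : A = 2 * a + 6 * b) (hB : B = a + 6 * b) (hC : C = 6 * c + 2 * d)
    (hD : D = 3 * c + 2 * d) :
    V F A B C D = kT F x y :=
  ev 5 hp 2 (by decide) (by show A * 2 + B * (-2) = 2 * a; omega)
    (by show A * (-1) + B * 2 = 2 * (3 * b); omega)
    (by show C * 2 + D * (-2) = 2 * (3 * c); omega)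
    (by show C * (-1) + D * 2 = 2 * d; omega)

private theorem ev6 {a b c d : ℤ} {x : ZMod (3 ^ r)} {y : ZMod (3 ^ s)} (hp : Pt a b c d x y)
    {A B C D : ℤ} (hA : A = -2 * a + 6 * b) (hB : B = a - 6 * b) (hC : C = -6 * c + 2 * d)
    (hD : D = 3 * c - 2 * d) :
    V F A B C D = kT' F x y :=
  ev 6 hp 2 (by decide) (by show A * (-2) + B * (-2) = 2 * a; omega)
    (by show A * (-1) + B * (-2) = 2 * (3 * b); omega)
    (by show C * (-2) + D * (-2) = 2 * (3 * c); omega)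
    (by show C * (-1) + D * (-2) = 2 * d; omega)

/-! ### the square relation -/

private def Sq (F : Fin 5 → ZMod (3 ^ r) → ZMod (3 ^ s) → R) (a b c d : ℤ) : Prop :=
  V F a b c d + V F (2 * a + 2 * b) (-a) (2 * c + 2 * d) (-c)
    + V F (a + 2 * b) (-a - b) (c + 2 * d) (-c - d)
    + V F (2 * b) (-a - 2 * b) (2 * d) (-c - 2 * d) = 0

private theorem ndet {a b c d : ℤ} (h : ¬ (3 : ℤ) ∣ a * d - b * c) (k : ℤ)
    (hk : ¬ (3 : ℤ) ∣ k) {m : ℤ} (hm : m = k * (a * d - b * c)) : ¬ (3 : ℤ) ∣ m := by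
  rw [hm]
  exact ndm hk h

private theorem sq_rot (hR : RelT F) {a b c d : ℤ} (h : ¬ (3 : ℤ) ∣ a * d - b * c)
    (hs : Sq F (2 * a + 2 * b) (-a) (2 * c + 2 * d) (-c)) : Sq F a b c d := by
  unfold Sq at hs ⊢
  rw [V_scale (F := F) hR (a := a + 2 * b) (b := -a - b) (c := c + 2 * d) (d := -c - d)
      (ndet h 1 (by decide) (by ring)) 2 (by decide)
      (A := 2 * (2 * a + 2 * b) + 2 * -a) (B := -(2 * a + 2 * b))
      (C := 2 * (2 * c + 2 * d) + 2 * -c) (D := -(2 * c + 2 * d))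
      (by ring) (by ring) (by ring) (by ring),
    V_scale (F := F) hR (a := a) (b := b) (c := c) (d := d) h (-2) (by decide)
      (A := 2 * -a) (B := -(2 * a + 2 * b) - 2 * -a)
      (C := 2 * -c) (D := -(2 * c + 2 * d) - 2 * -c)
      (by ring) (by ring) (by ring) (by ring)] at hs
  have e1 : 2 * a + 2 * b + 2 * -a = 2 * b := by ring
  have e2 : -(2 * a + 2 * b) - -a = -a - 2 * b := by ring
  have e3 : 2 * c + 2 * d + 2 * -c = 2 * d := by ring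
  have e4 : -(2 * c + 2 * d) - -c = -c - 2 * d := by ring
  rw [e1, e2, e3, e4] at hs
  rw [← hs]
  abel

private theorem pt_det {a b c d : ℤ} {x : ZMod (3 ^ r)} {y : ZMod (3 ^ s)}
    (hp : Pt a b c d x y) : ¬ (3 : ℤ) ∣ a * d - 3 * b * (3 * c) := by
  intro h
  exact ndm hp.1 hp.2.1
    ((dvd_sub_left (⟨b * (3 * c), by ring⟩ : (3 : ℤ) ∣ 3 * b * (3 * c))).1 h)

private theorem sq0 (hR : RelT F) {a b c d : ℤ} {x : ZMod (3 ^ r)} {y : ZMod (3 ^ s)}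
    (hp : Pt a b c d x y) : Sq F a (3 * b) (3 * c) d := by
  have hd := pt_det hp
  have t1 : V F (2 * a + 2 * (3 * b)) (-a) (2 * (3 * c) + 2 * d) (-(3 * c)) = -F 1 x y := by
    rw [V_S (F := F) hR (a := a) (b := a + 3 * b) (c := 3 * c) (d := 3 * c + d)
      (ndet hd 1 (by decide) (by ring)) (by ring) (by ring) (by ring) (by ring),
      ev1 hp rfl rfl rfl rfl]
  have t2 : V F (a + 2 * (3 * b)) (-a - 3 * b) (3 * c + 2 * d) (-(3 * c) - d) = -kT F x y := by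
    rw [← V_scale (F := F) hR (a := a + 2 * (3 * b)) (b := -a - 3 * b) (c := 3 * c + 2 * d)
        (d := -(3 * c) - d) (ndet hd 1 (by decide) (by ring)) 2 (by decide) rfl rfl rfl rfl,
      V_S (F := F) hR (a := 2 * a + 6 * b) (b := a + 6 * b) (c := 6 * c + 2 * d)
        (d := 3 * c + 2 * d)
        (ndet hd 2 (by decide) (by ring)) (by ring) (by ring) (by ring) (by ring),
      ev5 hp rfl rfl rfl rfl]
  have t3 : V F (2 * (3 * b)) (-a - 2 * (3 * b)) (2 * d) (-(3 * c) - 2 * d) = -F 3 x y := by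
    rw [V_S (F := F) hR (a := a + 6 * b) (b := 3 * b) (c := 3 * c + 2 * d) (d := d)
      (ndet hd 1 (by decide) (by ring)) (by ring) (by ring) (by ring) (by ring),
      ev3 hp rfl rfl rfl rfl]
  unfold Sq
  rw [ev0 hp rfl rfl rfl rfl, t1, t2, t3]
  unfold kT
  abel

private theorem sq2 (hR : RelT F) {a b c d : ℤ} {x : ZMod (3 ^ r)} {y : ZMod (3 ^ s)}
    (hp : Pt a b c d x y) : Sq F a (3 * b - a) (3 * c) (d - 3 * c) := by
  have hd := pt_det hp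
  have t1 : V F (2 * a + 2 * (3 * b - a)) (-a) (2 * (3 * c) + 2 * (d - 3 * c)) (-(3 * c))
      = -F 0 x y := by
    rw [V_S (F := F) hR (a := a) (b := 3 * b) (c := 3 * c) (d := d)
      hd (by ring) (by ring) (by ring) (by ring),
      ev0 hp rfl rfl rfl rfl]
  have t2 : V F (a + 2 * (3 * b - a)) (-a - (3 * b - a)) (3 * c + 2 * (d - 3 * c))
      (-(3 * c) - (d - 3 * c)) = F 4 x y := by
    rw [V_scale (F := F) hR (a := a - 6 * b) (b := 3 * b) (c := 3 * c - 2 * d)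
        (d := d) (ndet hd 1 (by decide) (by ring)) (-1) (by decide) (by ring) (by ring) (by ring)
        (by ring), ev4 hp rfl rfl rfl rfl]
  have t3 : V F (2 * (3 * b - a)) (-a - 2 * (3 * b - a)) (2 * (d - 3 * c))
      (-(3 * c) - 2 * (d - 3 * c)) = kT' F x y :=
    ev6 hp (by ring) (by ring) (by ring) (by ring)
  unfold Sq
  rw [ev2 hp rfl rfl rfl rfl, t1, t2, t3]
  unfold kT'
  abel

private theorem sq1 (hR : RelT F) {a b c d : ℤ} {x : ZMod (3 ^ r)} {y : ZMod (3 ^ s)}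
    (hp : Pt a b c d x y) : Sq F a (a + 3 * b) (3 * c) (3 * c + d) := by
  have hd := pt_det hp
  have m1 := pt_mul hp (α := 1) (β := 1) (γ := 0) (δ := 1) (by decide) (by decide)
  have m2 := pt_mul hp (α := 10) (β := 1) (γ := 2) (δ := 2) (by decide) (by decide)
  have m3 := pt_mul hp (α := 8) (β := -1) (γ := 2) (δ := -2) (by decide) (by decide)
  have t1 : V F (2 * a + 2 * (a + 3 * b)) (-a) (2 * (3 * c) + 2 * (3 * c + d)) (-(3 * c))
      = -tr 1 1 0 1 (F 2) x y := by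
    rw [V_S (F := F) hR (a := a) (b := 2 * a + 3 * b) (c := 3 * c) (d := 6 * c + d)
      (ndet hd 1 (by decide) (by ring)) (by ring) (by ring) (by ring) (by ring),
      ev2 m1 (by ring) (by ring) (by ring) (by ring)]
    rfl
  have t2 : V F (a + 2 * (a + 3 * b)) (-a - (a + 3 * b)) (3 * c + 2 * (3 * c + d))
      (-(3 * c) - (3 * c + d)) = -tr 10 1 2 2 (F 4) x y := by
    rw [← V_scale (F := F) hR (a := a + 2 * (a + 3 * b)) (b := -a - (a + 3 * b))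
        (c := 3 * c + 2 * (3 * c + d)) (d := -(3 * c) - (3 * c + d))
        (ndet hd 1 (by decide) (by ring)) 2 (by decide) rfl rfl rfl rfl,
      V_S (F := F) hR (a := 4 * a + 6 * b) (b := 3 * a + 6 * b) (c := 12 * c + 2 * d)
        (d := 9 * c + 2 * d)
        (ndet hd 2 (by decide) (by ring)) (by ring) (by ring) (by ring) (by ring),
      ev4 m2 (by ring) (by ring) (by ring) (by ring)]
    rfl
  have t3 : V F (2 * (a + 3 * b)) (-a - 2 * (a + 3 * b)) (2 * (3 * c + d))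
      (-(3 * c) - 2 * (3 * c + d)) = tr 8 (-1) 2 (-2) (F 3) x y := by
    rw [ev3 m3 (by ring) (by ring) (by ring) (by ring)]
    rfl
  unfold Sq
  rw [ev1 hp rfl rfl rfl rfl, t1, t2, t3]
  have h := hR.2.2 x y
  rw [← neg_eq_zero, ← h]
  abel

private theorem tri (a b : ℤ) : (3 : ℤ) ∣ a ∨ (3 : ℤ) ∣ b ∨ (3 : ℤ) ∣ b - a ∨ (3 : ℤ) ∣ b + a := by
  have h1 : a % 3 = 0 ∨ a % 3 = 1 ∨ a % 3 = 2 := by omega
  have h2 : b % 3 = 0 ∨ b % 3 = 1 ∨ b % 3 = 2 := by omega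
  rcases h1 with h1 | h1 | h1 <;> rcases h2 with h2 | h2 | h2 <;> omega

private theorem sq_all (hR : RelT F) {a b c d : ℤ} (h : ¬ (3 : ℤ) ∣ a * d - b * c) :
    Sq F a b c d := by
  have k0 : ∀ {a b c d : ℤ}, ¬ (3 : ℤ) ∣ a * d - b * c → (3 : ℤ) ∣ c → Sq F a b c d := by
    intro a b c d h hc
    obtain ⟨c', rfl⟩ := hc
    have hr := res (a := a) (b := b) (c := c') (d := d) (ndet h 1 (by decide) (by ring))
    have hb : (3 : ℤ) ∣ b ∨ (3 : ℤ) ∣ b - a ∨ (3 : ℤ) ∣ b + a := by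
      rcases tri a b with h1 | h1
      · exact absurd h1 hr.1
      · exact h1
    rcases hb with ⟨b', hb⟩ | ⟨b', hb⟩ | ⟨b', hb⟩
    · subst hb
      obtain ⟨x, y, hp⟩ := pt_mk r s (b := b') (c := c') hr.1 hr.2
      exact sq0 hR hp
    · obtain rfl : b = a + 3 * b' := by omega
      obtain ⟨d', rfl⟩ : ∃ d', d = 3 * c' + d' := ⟨d - 3 * c', by ring⟩
      have hd' : ¬ (3 : ℤ) ∣ d' := by
        have := hr.2
        omega
      obtain ⟨x, y, hp⟩ := pt_mk r s (b := b') (c := c') hr.1 hd'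
      exact sq1 hR hp
    · obtain rfl : b = 3 * b' - a := by omega
      obtain ⟨d', rfl⟩ : ∃ d', d = d' - 3 * c' := ⟨d + 3 * c', by ring⟩
      have hd' : ¬ (3 : ℤ) ∣ d' := by
        have := hr.2
        omega
      obtain ⟨x, y, hp⟩ := pt_mk r s (b := b') (c := c') hr.1 hd'
      exact sq2 hR hp
  have k4 : ∀ {a b c d : ℤ}, ¬ (3 : ℤ) ∣ a * d - b * c → (3 : ℤ) ∣ c + d → Sq F a b c d := by
    intro a b c d h hc
    exact sq_rot hR h (k0 (ndet h 2 (by decide) (by ring)) (by omega))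
  have k3 : ∀ {a b c d : ℤ}, ¬ (3 : ℤ) ∣ a * d - b * c → (3 : ℤ) ∣ c - d → Sq F a b c d := by
    intro a b c d h hc
    exact sq_rot hR h (k4 (ndet h 2 (by decide) (by ring)) (by omega))
  have k5 : ∀ {a b c d : ℤ}, ¬ (3 : ℤ) ∣ a * d - b * c → (3 : ℤ) ∣ d → Sq F a b c d := by
    intro a b c d h hc
    exact sq_rot hR h (k3 (ndet h 2 (by decide) (by ring)) (by omega))
  have hc : (3 : ℤ) ∣ c ∨ (3 : ℤ) ∣ c + d ∨ (3 : ℤ) ∣ c - d ∨ (3 : ℤ) ∣ d := by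
    rcases tri d c with h1 | h1 | h1 | h1
    · exact Or.inr (Or.inr (Or.inr h1))
    · exact Or.inl h1
    · exact Or.inr (Or.inr (Or.inl h1))
    · exact Or.inr (Or.inl h1)
  rcases hc with p | p | p | p
  · exact k0 h p
  · exact k4 h p
  · exact k3 h p
  · exact k5 h p

end

private theorem one3 {m : ℤ} (h : m = 1) : ¬ (3 : ℤ) ∣ m := by
  rw [h]
  decide

/-- Module ExA. -/
theorem hExA (_ht : S3Trm) : TExA := by
  intro R _ r s F hR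
  refine ⟨V F, ?_, ?_, ?_, ?_, ?_⟩
  · intro a b c d h _
    exact V_scale hR (one3 h) (-1) (by decide) (by ring) (by ring) (by ring) (by ring)
  · intro a b c d h _
    have h1 := sq_all hR (one3 h)
    unfold Sq at h1
    have t1 : V F (2 * a + 2 * b) (-a) (2 * c + 2 * d) (-c) = -V F a (a + b) c (c + d) :=
      V_S hR (ndet (one3 h) 1 (by decide) (by ring)) (by ring) (by ring) (by ring) (by ring)
    have t2 : V F (2 * b) (-a - 2 * b) (2 * d) (-c - 2 * d) = -V F (a + 2 * b) b (c + 2 * d) d :=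
      V_S hR (ndet (one3 h) 1 (by decide) (by ring)) (by ring) (by ring) (by ring) (by ring)
    rw [t1, t2] at h1
    have e1 : -(a + b) = -a - b := by ring
    have e2 : -(c + d) = -c - d := by ring
    rw [e1, e2]
    rw [← sub_eq_zero, ← h1]
    abel
  · intro α β γ δ a b c d hg _ hβ hγ h _
    obtain ⟨γ', hγ'⟩ := hγ
    have hr := res (a := α) (b := β * 3 ^ s) (c := γ') (d := δ) (one3 (by
      rw [← hg, hγ']; ring))
    exact V_left hR (one3 h) hr.1 hr.2 hβ ⟨γ', hγ'⟩ rfl rfl rfl rfl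
  · intro α β γ δ a b c d hg hβ hγ h
    obtain ⟨γ', hγ'⟩ := hγ
    have hr := res (a := 2 * α) (b := β * 3 ^ s) (c := γ') (d := δ) (one3 (by
      rw [← hg, hγ']; ring))
    have hd : ¬ (3 : ℤ) ∣ 2 * δ := ndm (by decide) hr.2
    have hN : ¬ (3 : ℤ) ∣ a * d - b * (2 * c) := one3 (by linear_combination h)
    have hdet : (2 * α * a + β * (2 * c)) * (2 * γ * b + 2 * δ * d) -
        (2 * α * b + β * d) * (2 * γ * a + 2 * δ * (2 * c)) =
        2 * (a * d - b * (2 * c)) := by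
      linear_combination 2 * (a * d - b * (2 * c)) * hg
    have h1 : V F (2 * α * a + β * (2 * c)) (2 * α * b + β * d) (2 * γ * a + 2 * δ * (2 * c))
        (2 * γ * b + 2 * δ * d) = V F a b (2 * c) d :=
      V_left hR hN hr.1 hd hβ ⟨2 * γ', by rw [hγ']; ring⟩ rfl rfl rfl rfl
    rw [← h1]
    have hN2 : ¬ (3 : ℤ) ∣ (2 * α * a + β * (2 * c)) * (2 * γ * b + 2 * δ * d) -
        (2 * α * b + β * d) * (2 * γ * a + 2 * δ * (2 * c)) := by
      rw [hdet]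
      exact ndm (by decide) hN
    rw [← V_S (F := F) hR hN2 rfl rfl rfl rfl]
    symm
    refine V_scale hR ?_ 2 (by decide) (by ring) (by ring) (by ring) (by ring)
    have : (2 * α * b + β * d) * -(γ * a + 2 * δ * c) - -(α * a + β * c) * (2 * (γ * b + δ * d)) =
        1 := by
      linear_combination (a * d - 2 * b * c) * hg + h
    rw [this]
    decide
  · intro x y a b c d h _ hx hy
    have hr := res (a := a) (b := b) (c := 3 * c) (d := d) (one3 (by linear_combination h))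
    have hp : Pt a b c d x y := ⟨hr.1, hr.2, hx, hy⟩
    exact ⟨ev0 hp rfl rfl rfl rfl, ev1 hp rfl rfl rfl rfl, ev2 hp rfl rfl rfl rfl,
      ev3 hp rfl rfl rfl rfl, ev4 hp rfl rfl rfl rfl⟩

end Pool.Agent.Helper66.TH3
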